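import Mathlib

/-!
Lazy random walks on groups and law probabilities; finite expectations.
-/

set_option autoImplicit false

namespace Pool.Agent.X141.LZ

open Filter Topology

/-! ## Definitions of the problem -/

/-- Convolution of finitely supported measures on a group: the law of a product `a * b` with
independent `a`, `b` of laws `μ`, `ν`. -/
noncomputable def conv {G : Type*} [Group G] (μ ν : G →₀ ℝ) : G →₀ ℝ :=
  μ.sum fun a r => ν.sum fun b s => Finsupp.single (a * b) (r * s)

/-- `μ^{*n}`, the law of `R_n` for the walk with step law `μ`. -/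
noncomputable def convPow {G : Type*} [Group G] (μ : G →₀ ℝ) : ℕ → (G →₀ ℝ)
  | 0 => Finsupp.single 1 1
  | (n + 1) => conv (convPow μ n) μ

/-- The step law of the lazy walk: `1` with probability `1/2`, otherwise uniform on `S`. -/
noncomputable def lazyLaw {G : Type*} [Group G] (S : Finset G) : G →₀ ℝ :=
  Finsupp.single 1 (1 / 2) + ∑ s ∈ S, Finsupp.single s (1 / 2 / (S.card : ℝ))

open Classical in
/-- `p_n(G, S, w)`: the probability that `w(R_n^(1), …, R_n^(d)) = 1` for `d` independent lazy walks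
with respect to `S`. -/
noncomputable def lawProb {G : Type*} [Group G] (S : Finset G) {d : ℕ} (w : FreeGroup (Fin d))
    (n : ℕ) : ℝ :=
  ∑ g ∈ Fintype.piFinset (fun _ : Fin d => (convPow (lazyLaw S) n).support),
    if FreeGroup.lift g w = 1 then ∏ i, convPow (lazyLaw S) n (g i) else 0

/-! ## Expectations -/

section EE

variable {G : Type*}

/-- Expectation of `F` under `m`. -/
noncomputable def EE (m : G →₀ ℝ) (F : G → ℝ) : ℝ := ∑ g ∈ m.support, m g * F g

theorem EE_eq (m : G →₀ ℝ) (F : G → ℝ) : EE m F = m.sum fun g c => c * F g := rfl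

theorem EE_single (a : G) (r : ℝ) (F : G → ℝ) : EE (Finsupp.single a r) F = r * F a := by
  rw [EE_eq, Finsupp.sum_single_index (by simp)]

theorem EE_zero (F : G → ℝ) : EE (0 : G →₀ ℝ) F = 0 := by
  simp [EE]

theorem EE_add (m m' : G →₀ ℝ) (F : G → ℝ) : EE (m + m') F = EE m F + EE m' F := by
  rw [EE_eq, EE_eq, EE_eq]
  classical
  exact Finsupp.sum_add_index' (fun _ => by simp) (fun _ _ _ => by ring)

theorem EE_sum {ι : Type*} (s : Finset ι) (m : ι → (G →₀ ℝ)) (F : G → ℝ) :
    EE (∑ i ∈ s, m i) F = ∑ i ∈ s, EE (m i) F := by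
  classical
  induction s using Finset.induction_on with
  | empty => simp [EE_zero]
  | insert i s hi ih => rw [Finset.sum_insert hi, Finset.sum_insert hi, EE_add, ih]

theorem EE_mono (m : G →₀ ℝ) (hm : ∀ g, 0 ≤ m g) (F F' : G → ℝ) (h : ∀ g, F g ≤ F' g) :
    EE m F ≤ EE m F' := by
  unfold EE
  exact Finset.sum_le_sum fun g _ => mul_le_mul_of_nonneg_left (h g) (hm g)

theorem EE_mul_left (m : G →₀ ℝ) (c : ℝ) (F : G → ℝ) : EE m (fun x => c * F x) = c * EE m F := by
  unfold EE
  rw [Finset.mul_sum]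
  exact Finset.sum_congr rfl fun g _ => by ring

theorem EE_const (m : G →₀ ℝ) (hm : EE m (fun _ => 1) = 1) (c : ℝ) : EE m (fun _ => c) = c := by
  have h := EE_mul_left m c (fun _ => 1)
  rw [hm] at h
  simpa using h

theorem EE_add_fun (m : G →₀ ℝ) (F F' : G → ℝ) :
    EE m (fun x => F x + F' x) = EE m F + EE m F' := by
  unfold EE
  rw [← Finset.sum_add_distrib]
  exact Finset.sum_congr rfl fun g _ => by ring

theorem EE_sub_fun (m : G →₀ ℝ) (F F' : G → ℝ) :
    EE m (fun x => F x - F' x) = EE m F - EE m F' := by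
  unfold EE
  rw [← Finset.sum_sub_distrib]
  exact Finset.sum_congr rfl fun g _ => by ring

theorem EE_sum_fun {ι : Type*} (m : G →₀ ℝ) (s : Finset ι) (F : ι → G → ℝ) :
    EE m (fun x => ∑ i ∈ s, F i x) = ∑ i ∈ s, EE m (F i) := by
  unfold EE
  rw [Finset.sum_comm]
  refine Finset.sum_congr rfl fun g _ => ?_
  rw [Finset.mul_sum]

theorem EE_prod (m : G →₀ ℝ) (F F' : G → ℝ) :
    EE m (fun x => EE m (fun y => F x * F' y)) = EE m F * EE m F' := by
  have h : (fun x => EE m (fun y => F x * F' y)) = fun x => EE m F' * F x := by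
    funext x
    rw [EE_mul_left, mul_comm]
  rw [h, EE_mul_left, mul_comm]

variable [Group G]

theorem EE_conv (μ ν : G →₀ ℝ) (F : G → ℝ) :
    EE (conv μ ν) F = EE μ (fun x => EE ν (fun y => F (x * y))) := by
  have h1 : conv μ ν = ∑ a ∈ μ.support, ∑ b ∈ ν.support, Finsupp.single (a * b) (μ a * ν b) := rfl
  rw [h1, EE_sum]
  have h2 : EE μ (fun x => EE ν (fun y => F (x * y))) =
      ∑ a ∈ μ.support, μ a * ∑ b ∈ ν.support, ν b * F (a * b) := rfl
  rw [h2]
  refine Finset.sum_congr rfl fun a _ => ?_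
  rw [EE_sum, Finset.mul_sum]
  refine Finset.sum_congr rfl fun b _ => ?_
  rw [EE_single]
  ring

theorem EE_succ (μ : G →₀ ℝ) (n : ℕ) (F : G → ℝ) :
    EE (convPow μ (n + 1)) F = EE (convPow μ n) (fun x => EE μ (fun y => F (x * y))) :=
  EE_conv _ _ _

theorem EE_convPow_zero (μ : G →₀ ℝ) (F : G → ℝ) : EE (convPow μ 0) F = F 1 := by
  simp only [convPow]
  rw [EE_single, one_mul]

theorem EE_succ' (μ : G →₀ ℝ) (n : ℕ) (F : G → ℝ) :
    EE (convPow μ (n + 1)) F = EE μ (fun x => EE (convPow μ n) (fun y => F (x * y))) := by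
  induction n generalizing F with
  | zero =>
    simp only [convPow]
    rw [EE_conv, EE_single]
    simp only [EE_single, one_mul, mul_one]
  | succ n ih =>
    rw [EE_succ, ih]
    congr 1
    ext x
    rw [EE_succ]
    simp only [mul_assoc]

theorem EE_pow_one (μ : G →₀ ℝ) (h : EE μ (fun _ => 1) = 1) (n : ℕ) :
    EE (convPow μ n) (fun _ => 1) = 1 := by
  induction n with
  | zero => rw [EE_convPow_zero]
  | succ n ih =>
    rw [EE_succ']
    simp only [ih]
    exact h

/-- Push forward along a homomorphism. -/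
theorem EE_map {H : Type*} [Group H] (π : G →* H) (μ : G →₀ ℝ) (ν : H →₀ ℝ)
    (h : ∀ F : H → ℝ, EE μ (fun x => F (π x)) = EE ν F) (n : ℕ) (F : H → ℝ) :
    EE (convPow μ n) (fun x => F (π x)) = EE (convPow ν n) F := by
  induction n generalizing F with
  | zero => rw [EE_convPow_zero, EE_convPow_zero, map_one]
  | succ n ih =>
    rw [EE_succ', EE_succ', ← h]
    congr 1
    ext x
    rw [← ih]
    simp only [map_mul]

theorem conv_nonneg (μ ν : G →₀ ℝ) (h1 : ∀ g, 0 ≤ μ g) (h2 : ∀ g, 0 ≤ ν g) (g : G) :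
    0 ≤ conv μ ν g := by
  have e : conv μ ν = ∑ a ∈ μ.support, ∑ b ∈ ν.support, Finsupp.single (a * b) (μ a * ν b) := rfl
  rw [e, Finsupp.finsetSum_apply]
  refine Finset.sum_nonneg fun a _ => ?_
  rw [Finsupp.finsetSum_apply]
  refine Finset.sum_nonneg fun b _ => ?_
  classical
  rw [Finsupp.single_apply]
  split_ifs
  · exact mul_nonneg (h1 a) (h2 b)
  · exact le_rfl

theorem convPow_nonneg (μ : G →₀ ℝ) (h : ∀ g, 0 ≤ μ g) (n : ℕ) (g : G) : 0 ≤ convPow μ n g := by
  induction n generalizing g with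
  | zero =>
    classical
    simp only [convPow]
    rw [Finsupp.single_apply]
    split_ifs
    · exact zero_le_one
    · exact le_rfl
  | succ n ih => exact conv_nonneg _ _ ih h g

open Classical in
/-- The probability at time `n` for a word in two letters as an iterated expectation. -/
theorem lawProb_two (S : Finset G) (w : FreeGroup (Fin 2)) (n : ℕ) :
    lawProb S w n = EE (convPow (lazyLaw S) n) (fun x => EE (convPow (lazyLaw S) n) (fun y =>
        if FreeGroup.lift ![x, y] w = 1 then 1 else 0)) := by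
  set m := convPow (lazyLaw S) n with hm
  set s := m.support with hs
  have h1 : lawProb S w n = ∑ p ∈ s ×ˢ s,
      (if FreeGroup.lift ![p.1, p.2] w = 1 then m p.1 * m p.2 else 0) := by
    unfold lawProb
    refine Finset.sum_bij' (fun g _ => (g 0, g 1)) (fun p _ => ![p.1, p.2]) ?_ ?_ ?_ ?_ ?_
    · intro g hg
      rw [Fintype.mem_piFinset] at hg
      simp only [Finset.mem_product]
      exact ⟨hg 0, hg 1⟩
    · rintro ⟨x, y⟩ hp
      simp only [Finset.mem_product] at hp
      rw [Fintype.mem_piFinset]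
      intro i
      fin_cases i
      · exact hp.1
      · exact hp.2
    · intro g _
      ext i
      fin_cases i <;> rfl
    · rintro ⟨x, y⟩ _
      rfl
    · intro g _
      have e : ![g 0, g 1] = g := by
        ext i
        fin_cases i <;> rfl
      simp only [e, Fin.prod_univ_two]
      rfl
  rw [h1, Finset.sum_product]
  unfold EE
  refine Finset.sum_congr rfl fun x _ => ?_
  rw [Finset.mul_sum]
  refine Finset.sum_congr rfl fun y _ => ?_
  simp only [mul_ite, mul_one, mul_zero]

end EE

end Pool.Agent.X141.LZ
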