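import Pool.Agent.X141.LZ.Walk

/-!
The main estimate.
-/

set_option autoImplicit false

namespace Pool.Agent.X141.LZ

open LaurentPolynomial El

theorem two_eq_zero_R : (2 : R) = 0 := by
  have := add_self2 (1 : R)
  rwa [one_add_one_eq_two] at this

theorem aug_hh (x y : LL) : Lf (fun _ => 1) (invert (hh x y) * hh x y) = 0 := by
  have e : invert (hh x y) * hh x y = (1 + T y.z) * (invert (hh x y) * x.f) +
      (1 + T x.z) * (invert (hh x y) * y.f) := by
    conv_lhs => rw [show hh x y = (1 + T y.z) * x.f + (1 + T x.z) * y.f from rfl]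
    conv_rhs => rw [show hh x y = (1 + T y.z) * x.f + (1 + T x.z) * y.f from rfl]
    ring
  rw [e, map_add, Lf_aug, Lf_aug, add_zero]

theorem good_f {K : ℤ} {x : LL} (h : good K 0 x) : x.f ∈ I (-K) K := by
  have := h.1
  rwa [T_zero, one_mul] at this

theorem hh_I {K : ℤ} {x y : LL} (hx : good K 0 x) (hy : good K 0 y) :
    hh x y ∈ I (-(2 * K)) (2 * K) := by
  have hfx := good_f hx
  have hfy := good_f hy
  have hx1 := hx.2.1
  have hx2 := hx.2.2
  have hy1 := hy.2.1
  have hy2 := hy.2.2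
  rw [zero_add] at hx1 hx2 hy1 hy2
  unfold hh
  refine (I _ _).add_mem ?_ ?_
  · rw [add_mul, one_mul]
    refine (I _ _).add_mem ?_ ?_
    · exact I_mono (by omega) (by omega) hfx
    · exact I_mono (by omega) (by omega) (I_shift y.z hfx)
  · rw [add_mul, one_mul]
    refine (I _ _).add_mem ?_ ?_
    · exact I_mono (by omega) (by omega) hfy
    · exact I_mono (by omega) (by omega) (I_shift x.z hfy)

theorem ob_small {K s : ℤ} {k : ℕ} {h : R} (hI : h ∈ I (-(2 * K)) (2 * K))
    (ha : Lf (fun _ => 1) (invert h * h) = 0) (hs : 4 * K + k < s) : ob k s h = 0 := by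
  have hN : invert h * h ∈ I (-(4 * K)) (4 * K) := by
    have := I_mul (I_inv hI) hI
    exact I_mono (by omega) (by omega) this
  unfold ob
  rw [add_mul, map_add]
  unfold cnt
  rw [Lf_shift, Lf_shift]
  have h1 : Lf (fun r => if (k : ℤ) < s + r then (1 : ZMod 2) else 0) (invert h * h) =
      Lf (fun _ => 1) (invert h * h) := by
    refine Lf_I (fun r hr1 hr2 => ?_) hN
    rw [if_pos (by omega)]
  have h2 : Lf (fun r => if (k : ℤ) < -s + r then (1 : ZMod 2) else 0) (invert h * h) =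
      Lf (fun _ => 0) (invert h * h) := by
    refine Lf_I (fun r hr1 hr2 => ?_) hN
    rw [if_neg (by omega)]
  rw [h1, h2, ha, Lf_zero, add_zero]

theorem ob_second (k : ℕ) (s : ℤ) (h u v : R) :
    ob k s (h + u + v) + ob k s (h + u) + ob k s (h + v) + ob k s h =
      cnt k ((T s + T (-s)) * (invert u * v + invert v * u)) := by
  unfold ob
  rw [← map_add, ← map_add, ← map_add]
  congr 1
  rw [map_add, map_add, map_add]
  linear_combination (2 * (invert h) * h + (invert h) * u + (invert h) * v + (invert u) * h +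
    (invert u) * u + (invert v) * h + (invert v) * v) * (T s + T (-s)) * two_eq_zero_R

theorem mixed_value {p q s : ℤ} {d : ℕ} (_hp : 0 < p) (hq : q < 0) (hs : s = 41 * p)
    (h1 : s + p ≤ d) (h2 : s - q ≤ d) (h3 : (d : ℤ) < s + p - q) :
    cnt d ((T s + T (-s)) * (invert (1 + T q) * (1 + T p) + invert (1 + T p) * (1 + T q))) = 1 := by
  have e : (T s + T (-s) : R) * (invert (1 + T q) * (1 + T p) + invert (1 + T p) * (1 + T q)) =
      T (s + p) + T (s - q) + T (s + p - q) + T (s + q) + T (s - p) + T (s + q - p) +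
      T (-s + p) + T (-s - q) + T (-s + p - q) + T (-s + q) + T (-s - p) + T (-s + q - p) := by
    simp only [map_add, map_one, invert_T, T_add, T_sub]
    linear_combination (T s + T (-s)) * two_eq_zero_R
  rw [e]
  simp only [map_add, cnt_T]
  rw [if_neg (by omega : ¬ (d : ℤ) < s + p), if_neg (by omega : ¬ (d : ℤ) < s - q),
    if_pos h3, if_neg (by omega : ¬ (d : ℤ) < s + q), if_neg (by omega : ¬ (d : ℤ) < s - p),
    if_neg (by omega : ¬ (d : ℤ) < s + q - p), if_neg (by omega : ¬ (d : ℤ) < -s + p),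
    if_neg (by omega : ¬ (d : ℤ) < -s - q), if_neg (by omega : ¬ (d : ℤ) < -s + p - q),
    if_neg (by omega : ¬ (d : ℤ) < -s + q), if_neg (by omega : ¬ (d : ℤ) < -s - p),
    if_neg (by omega : ¬ (d : ℤ) < -s + q - p)]
  rfl

theorem tog_f (x : LL) : (lamp 1 * x : LL).f = x.f + 1 := by
  rw [mul_f]
  show C 1 + T 0 * x.f = _
  rw [T_zero, map_one, one_mul, add_comm]

theorem tog_z (x : LL) : (lamp 1 * x : LL).z = x.z := by
  rw [mul_z]
  exact zero_add _

theorem hh_tog_left (x y : LL) : hh (lamp 1 * x : LL) y = hh x y + (1 + T y.z) := by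
  unfold hh
  rw [tog_f, tog_z]
  ring

theorem hh_tog_right (x y : LL) : hh x (lamp 1 * y : LL) = hh x y + (1 + T x.z) := by
  unfold hh
  rw [tog_f, tog_z]
  ring

theorem good_tog {K : ℤ} (hK : 0 ≤ K) (x : LL) : good K 0 (lamp 1 * x) ↔ good K 0 x := by
  have key : ∀ x : LL, good K 0 x → good K 0 (lamp 1 * x) := by
    intro x hx
    refine ⟨?_, ?_, ?_⟩
    · rw [T_zero, one_mul, tog_f]
      exact (I _ _).add_mem (good_f hx) (I_one (by omega) hK)
    · rw [tog_z]
      exact hx.2.1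
    · rw [tog_z]
      exact hx.2.2
  constructor
  · intro h
    have := key _ h
    rwa [← mul_assoc, lamp_mul, show (1 : ZMod 2) + 1 = 0 from rfl, lamp_zero, one_mul] at this
  · exact key x

theorem good_refl {K : ℤ} {x : LL} (h : good K 0 x) : good K 0 (refl x) := by
  refine ⟨?_, ?_, ?_⟩
  · rw [T_zero, one_mul]
    show invert x.f ∈ _
    have := I_inv (good_f h)
    rwa [neg_neg] at this
  · show -K ≤ 0 + -x.z
    have := h.2.2
    omega
  · show 0 + -x.z ≤ K
    have := h.2.1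
    omega

/-- The event for `x`. -/
def Ex (r : ℕ) (x : LL) : Prop := (r : ℤ) ≤ x.z ∧ good (10 * r) 0 x

/-- The event for `y`. -/
def Ey (r : ℕ) (x : LL) : Prop := x.z ≤ -(r : ℤ) ∧ good (10 * r) 0 x

open Classical in
theorem prob_Ex (r : ℕ) (hr : 0 < r) :
    1 / 25 ≤ EE (la (4 * r ^ 2)) (fun x => if Ex r x then (1 : ℝ) else 0) := by
  have h1 := prob_far r hr
  have h2 := not_good (10 * r) (by positivity) (4 * r ^ 2) 0
  have hp : ∀ x : LL, (if (r : ℤ) ≤ |x.z| then (1 : ℝ) else 0) ≤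
      ((if Ex r x then (1 : ℝ) else 0) + (if Ex r (refl x) then (1 : ℝ) else 0)) +
        (if ¬ good (10 * r) 0 x then (1 : ℝ) else 0) := by
    intro x
    have n1 : (0 : ℝ) ≤ if Ex r x then (1 : ℝ) else 0 := by split_ifs <;> norm_num
    have n2 : (0 : ℝ) ≤ if Ex r (refl x) then (1 : ℝ) else 0 := by split_ifs <;> norm_num
    have n3 : (0 : ℝ) ≤ if ¬ good (10 * r) 0 x then (1 : ℝ) else 0 := by
      split_ifs <;> norm_num
    by_cases hx : (r : ℤ) ≤ |x.z|
    · rw [if_pos hx]
      by_cases hg : good (10 * r) 0 x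
      · rcases le_abs.1 hx with h | h
        · have : Ex r x := ⟨h, hg⟩
          rw [if_pos this] at n1 ⊢
          linarith
        · have : Ex r (refl x) := ⟨h, good_refl hg⟩
          rw [if_pos this] at n2 ⊢
          linarith
      · rw [if_pos hg] at n3 ⊢
        linarith
    · rw [if_neg hx]
      linarith
  have h3 := EE_mono _ (la_nonneg (4 * r ^ 2)) _ _ hp
  rw [EE_add_fun, EE_add_fun, la_refl (4 * r ^ 2) (fun x => if Ex r x then (1 : ℝ) else 0)] at h3
  have hr' : (0 : ℝ) < r := by exact_mod_cast hr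
  push_cast at h2
  have h4 : EE (la (4 * r ^ 2)) (fun x => if ¬ good (10 * r) 0 x then (1 : ℝ) else 0) ≤ 1 / 50 := by
    have h5 : (0 : ℝ) < (r : ℝ) ^ 2 := by positivity
    by_contra hc
    have hc' := not_le.1 hc
    have := mul_lt_mul_of_pos_left hc' (by positivity : (0 : ℝ) < (10 * (r : ℝ)) ^ 2)
    nlinarith
  linarith

open Classical in
theorem prob_Ey (r : ℕ) (hr : 0 < r) :
    1 / 25 ≤ EE (la (4 * r ^ 2)) (fun x => if Ey r x then (1 : ℝ) else 0) := by
  refine (prob_Ex r hr).trans ?_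
  rw [← la_refl (4 * r ^ 2) (fun x => if Ey r x then (1 : ℝ) else 0)]
  refine EE_mono _ (la_nonneg _) _ _ fun x => ?_
  by_cases h : Ex r x
  · have : Ey r (refl x) := ⟨neg_le_neg h.1, good_refl h.2⟩
    rw [if_pos h, if_pos this]
  · rw [if_neg h]
    split_ifs <;> norm_num

/-- `41 p + max p (-q)` -/
def tv (x y : LL) : ℤ := 41 * x.z + max x.z (-y.z)

/-- The window event. -/
def Wd (r a : ℕ) (x y : LL) : Prop :=
  Ex r x ∧ Ey r y ∧ (a : ℤ) * r < tv x y ∧ tv x y ≤ (a + 1) * r

theorem Wd_tog_left (r a : ℕ) (x y : LL) : Wd r a (lamp 1 * x) y ↔ Wd r a x y := by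
  unfold Wd Ex tv
  rw [tog_z, good_tog (by positivity)]

theorem Wd_tog_right (r a : ℕ) (x y : LL) : Wd r a x (lamp 1 * y) ↔ Wd r a x y := by
  unfold Wd Ey tv
  rw [tog_z, good_tog (by positivity)]

/-- some window occurs -/
theorem exists_window (r : ℕ) (hr : 0 < r) (x y : LL) (hx : Ex r x) (hy : Ey r y) :
    ∃ a < 421, Wd r a x y := by
  have hx1 := hx.1
  have hy1 := hy.1
  have hx2 := hx.2.2.2
  have hy2 := hy.2.2.1
  have hr' : (0 : ℤ) < r := by exact_mod_cast hr
  have ht1 : 0 < tv x y := by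
    unfold tv
    have := le_max_left x.z (-y.z)
    omega
  have ht2 : tv x y ≤ 420 * r := by
    unfold tv
    have : max x.z (-y.z) ≤ 10 * r := max_le (by omega) (by omega)
    omega
  have hdiv : 0 ≤ (tv x y - 1) / r := Int.ediv_nonneg (by omega) hr'.le
  obtain ⟨a, ha⟩ := Int.eq_ofNat_of_zero_le hdiv
  have h1 : (r : ℤ) * ((tv x y - 1) / r) + (tv x y - 1) % r = tv x y - 1 :=
    Int.mul_ediv_add_emod _ _
  have h2 : 0 ≤ (tv x y - 1) % r := Int.emod_nonneg _ hr'.ne'
  have h3 : (tv x y - 1) % r < r := Int.emod_lt_of_pos _ hr'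
  rw [ha] at h1
  refine ⟨a, ?_, hx, hy, ?_, ?_⟩
  · by_contra hc
    have hc' : (421 : ℤ) ≤ a := by
      have := not_lt.1 hc
      exact_mod_cast this
    have : (r : ℤ) * 421 ≤ r * a := mul_le_mul_of_nonneg_left hc' hr'.le
    have h4 : (r : ℤ) * (a : ℤ) = r * ((a : ℕ) : ℤ) := rfl
    linarith
  · have : (a : ℤ) * r = r * a := mul_comm _ _
    rw [this]
    linarith
  · have : ((a : ℤ) + 1) * r = r * a + r := by ring
    rw [this]
    linarith

theorem Wd_small (r a M : ℕ) (hM : M < r) (x y : LL) (h : Wd r a x y) (k : ℕ) (hk : k ≤ M) :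
    ob k (41 * x.z) (hh x y) = 0 := by
  obtain ⟨hx, hy, -, -⟩ := h
  refine ob_small (hh_I hx.2 hy.2) (aug_hh x y) ?_
  have := hx.1
  omega

theorem Wd_mixed (r a : ℕ) (hr : 0 < r) (x y : LL) (h : Wd r a x y) :
    ob ((a + 1) * r) (41 * x.z) (hh (lamp 1 * x : LL) (lamp 1 * y)) +
      ob ((a + 1) * r) (41 * x.z) (hh (lamp 1 * x : LL) y) +
      ob ((a + 1) * r) (41 * x.z) (hh x (lamp 1 * y : LL)) +
      ob ((a + 1) * r) (41 * x.z) (hh x y) = 1 := by
  obtain ⟨hx, hy, ht1, ht2⟩ := h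
  rw [hh_tog_right, hh_tog_left, hh_tog_right, tog_z, ob_second]
  have hr' : (0 : ℤ) < r := by exact_mod_cast hr
  have hx1 := hx.1
  have hy1 := hy.1
  have e : (((a + 1) * r : ℕ) : ℤ) = (a + 1) * r := by push_cast; ring
  have e2 : ((a : ℤ) + 1) * r = a * r + r := by ring
  unfold tv at ht1 ht2
  apply mixed_value (by omega) (by omega) rfl
  · rw [e]
    have := le_max_left x.z (-y.z)
    linarith
  · rw [e]
    have := le_max_right x.z (-y.z)
    linarith
  · rw [e, e2]
    rcases max_cases x.z (-y.z) with ⟨h, _⟩ | ⟨h, _⟩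
    · rw [h] at ht1
      linarith
    · rw [h] at ht1
      linarith

/-- The universal constant. -/
noncomputable def del : ℝ := 1 / 1052500

theorem del_pos : 0 < del := by
  unfold del
  norm_num

open Classical in
theorem key (M N : ℕ) : ∃ d, N ≤ d ∧ ∃ n, N ≤ n ∧
    del ≤ EE (la n) (fun x => EE (la n) (fun y =>
      if (∀ k ≤ M, ob k (41 * x.z) (hh x y) = 0) ∧ ob d (41 * x.z) (hh x y) ≠ 0
        then (1 : ℝ) else 0)) := by
  set r : ℕ := max M N + 1 with hrdef
  have hr : 0 < r := by omega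
  have hM : M < r := by omega
  have hN : N ≤ r := by omega
  set n : ℕ := 4 * r ^ 2 with hn
  have hNn : N ≤ n := by nlinarith
  -- pigeonhole
  have h1 : 1 / 625 ≤ ∑ a ∈ Finset.range 421, EE (la n) (fun x => EE (la n) (fun y =>
      if Wd r a x y then (1 : ℝ) else 0)) := by
    have hxy : (1 : ℝ) / 625 ≤ EE (la n) (fun x => EE (la n) (fun y =>
        (if Ex r x then (1 : ℝ) else 0) * (if Ey r y then (1 : ℝ) else 0))) := by
      rw [EE_prod]
      have a1 := prob_Ex r hr
      have a2 := prob_Ey r hr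
      rw [← hn] at a1 a2
      nlinarith
    refine hxy.trans ?_
    rw [← EE_sum_fun]
    refine EE_mono _ (la_nonneg n) _ _ fun x => ?_
    rw [← EE_sum_fun]
    refine EE_mono _ (la_nonneg n) _ _ fun y => ?_
    have hnn : ∀ a ∈ Finset.range 421, (0 : ℝ) ≤ if Wd r a x y then (1 : ℝ) else 0 := by
      intro a _
      split_ifs <;> norm_num
    by_cases hx : Ex r x
    · by_cases hy : Ey r y
      · obtain ⟨a, ha, hW⟩ := exists_window r hr x y hx hy
        have := Finset.single_le_sum hnn (Finset.mem_range.2 ha)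
        rw [if_pos hW] at this
        rw [if_pos hx, if_pos hy, one_mul]
        exact this
      · rw [if_neg hy, mul_zero]
        exact Finset.sum_nonneg hnn
    · rw [if_neg hx, zero_mul]
      exact Finset.sum_nonneg hnn
  obtain ⟨a, -, ha⟩ : ∃ a ∈ Finset.range 421, (1 : ℝ) / 263125 ≤ EE (la n) (fun x =>
      EE (la n) (fun y => if Wd r a x y then (1 : ℝ) else 0)) := by
    by_contra hc
    push Not at hc
    have h2 := Finset.sum_lt_sum_of_nonempty (s := Finset.range 421) ⟨0, by simp⟩ hc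
    rw [Finset.sum_const, Finset.card_range, nsmul_eq_mul] at h2
    norm_num at h2 h1
    linarith
  refine ⟨(a + 1) * r, by nlinarith, n, hNn, ?_⟩
  set d : ℕ := (a + 1) * r with hd
  set Φ : LL → LL → ℝ := fun x y =>
    if Wd r a x y ∧ ob d (41 * x.z) (hh x y) ≠ 0 then (1 : ℝ) else 0 with hΦ
  have hΦ0 : ∀ x y, 0 ≤ Φ x y := by
    intro x y
    simp only [hΦ]
    split_ifs <;> norm_num
  have hpt : ∀ x y : LL, (if Wd r a x y then (1 : ℝ) else 0) ≤
      ((Φ x y + Φ (lamp 1 * x) y) + Φ x (lamp 1 * y)) + Φ (lamp 1 * x) (lamp 1 * y) := by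
    intro x y
    have n1 := hΦ0 x y
    have n2 := hΦ0 (lamp 1 * x) y
    have n3 := hΦ0 x (lamp 1 * y)
    have n4 := hΦ0 (lamp 1 * x) (lamp 1 * y)
    by_cases hW : Wd r a x y
    · rw [if_pos hW]
      have hmix := Wd_mixed r a hr x y hW
      rw [← hd] at hmix
      by_contra hc
      have hlt := not_le.1 hc
      have z : ∀ u v : LL, Wd r a u v → u.z = x.z → Φ u v < 1 → ob d (41 * x.z) (hh u v) = 0 := by
        intro u v huv hz hlt
        by_contra hne
        have : Φ u v = 1 := by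
          simp only [hΦ]
          rw [if_pos ⟨huv, by rw [hz]; exact hne⟩]
        rw [this] at hlt
        exact lt_irrefl _ hlt
      have e1 := z x y hW rfl (by linarith)
      have e2 := z (lamp 1 * x) y ((Wd_tog_left r a x y).2 hW) (tog_z x) (by linarith)
      have e3 := z x (lamp 1 * y) ((Wd_tog_right r a x y).2 hW) rfl (by linarith)
      have e4 := z (lamp 1 * x) (lamp 1 * y)
        ((Wd_tog_left r a x _).2 ((Wd_tog_right r a x y).2 hW)) (tog_z x) (by linarith)
      rw [e1, e2, e3, e4] at hmix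
      simp at hmix
    · rw [if_neg hW]
      linarith
  have hzx : ∀ x y : LL, x.z = 0 → Φ x y = 0 := by
    intro x y hz
    simp only [hΦ]
    rw [if_neg]
    rintro ⟨⟨hx, -⟩, -⟩
    have := hx.1
    omega
  have hzy : ∀ x y : LL, y.z = 0 → Φ x y = 0 := by
    intro x y hz
    simp only [hΦ]
    rw [if_neg]
    rintro ⟨⟨-, hy, -⟩, -⟩
    have := hy.1
    omega
  have t1 : ∀ Ψ : LL → LL → ℝ, (∀ x y : LL, x.z = 0 → Ψ x y = 0) →
      EE (la n) (fun x => EE (la n) (fun y => Ψ (lamp 1 * x) y)) =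
        EE (la n) (fun x => EE (la n) (fun y => Ψ x y)) := by
    intro Ψ hΨ
    refine la_toggle n (fun x => EE (la n) (fun y => Ψ x y)) fun x hx => ?_
    have : (fun y => Ψ x y) = fun _ => (0 : ℝ) := by
      funext y
      exact hΨ x y hx
    simp only [this]
    unfold EE
    simp
  have t2 : ∀ x : LL, EE (la n) (fun y => Φ x (lamp 1 * y)) = EE (la n) (fun y => Φ x y) := by
    intro x
    exact la_toggle n (fun y => Φ x y) fun y hy => hzy x y hy
  have hsum := EE_mono _ (la_nonneg n) _ _ fun x => EE_mono _ (la_nonneg n) _ _ fun y => hpt x y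
  simp only [EE_add_fun] at hsum
  rw [t1 Φ hzx] at hsum
  have t3 : EE (la n) (fun x => EE (la n) (fun y => Φ (lamp 1 * x) (lamp 1 * y))) =
      EE (la n) (fun x => EE (la n) (fun y => Φ x y)) := by
    rw [t1 (fun x y => Φ x (lamp 1 * y)) (fun x y hx => hzx x _ hx)]
    simp only [t2]
  rw [t3] at hsum
  simp only [t2] at hsum
  have hfin : EE (la n) (fun x => EE (la n) (fun y => Φ x y)) ≤
      EE (la n) (fun x => EE (la n) (fun y =>
      if (∀ k ≤ M, ob k (41 * x.z) (hh x y) = 0) ∧ ob d (41 * x.z) (hh x y) ≠ 0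
        then (1 : ℝ) else 0)) := by
    refine EE_mono _ (la_nonneg n) _ _ fun x => EE_mono _ (la_nonneg n) _ _ fun y => ?_
    simp only [hΦ]
    by_cases h : Wd r a x y ∧ ob d (41 * x.z) (hh x y) ≠ 0
    · rw [if_pos h, if_pos ⟨fun k hk => Wd_small r a M hM x y h.1 k hk, h.2⟩]
    · rw [if_neg h]
      split_ifs <;> norm_num
  refine le_trans ?_ hfin
  unfold del
  linarith

end Pool.Agent.X141.LZ
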