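import Pool.Agent.X141.LZ.Ring

/-!
Central extensions of the lamplighter group.
-/

set_option autoImplicit false

namespace Pool.Agent.X141.LZ

open LaurentPolynomial

/-- The kernel at `k`: lags `r > k` are counted if `k ∈ D`. -/
def ker (D : ℕ → Bool) (k : ℕ) (r : ℤ) : ZMod 2 := if D k = true ∧ (k : ℤ) < r then 1 else 0

theorem ker_zero (D : ℕ → Bool) (k : ℕ) : ker D k 0 = 0 := by
  unfold ker
  rw [if_neg]
  rintro ⟨-, h⟩
  omega

/-- The cocycle. -/
noncomputable def be (D : ℕ → Bool) (f g : R) : ℕ → ZMod 2 := fun k => Lf (ker D k) (invert f * g)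

theorem be_add_left (D : ℕ → Bool) (f g h : R) : be D (f + g) h = be D f h + be D g h := by
  funext k
  simp only [be, Pi.add_apply, map_add, add_mul]

theorem be_add_right (D : ℕ → Bool) (f g h : R) : be D f (g + h) = be D f g + be D f h := by
  funext k
  simp only [be, Pi.add_apply, map_add, mul_add]

theorem be_zero_left (D : ℕ → Bool) (g : R) : be D 0 g = 0 := by
  funext k
  simp [be]

theorem be_zero_right (D : ℕ → Bool) (g : R) : be D g 0 = 0 := by
  funext k
  simp [be]

theorem be_shift (D : ℕ → Bool) (n : ℤ) (f g : R) : be D (T n * f) (T n * g) = be D f g := by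
  funext k
  unfold be
  have : invert (T n * f) * (T n * g) = invert f * g := by
    rw [map_mul, invert_T]
    calc (T (-n) : R) * invert f * (T n * g) = (T (-n) * T n) * (invert f * g) := by ring
      _ = invert f * g := by rw [← T_add, neg_add_cancel, T_zero, one_mul]
  rw [this]

theorem be_false (f g : R) : be (fun _ => false) f g = 0 := by
  funext k
  unfold be
  have : ker (fun _ => false) k = fun _ => 0 := by
    funext r
    simp [ker]
  rw [this, Lf_zero]
  rfl

/-- The central extension of the lamplighter group by `(ZMod 2)^ℕ`. -/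
@[ext] structure El (D : ℕ → Bool) where
  /-- the central part -/
  c : ℕ → ZMod 2
  /-- the lamps -/
  f : R
  /-- the position -/
  z : ℤ

namespace El

variable {D : ℕ → Bool}

noncomputable instance : Mul (El D) :=
  ⟨fun x y => ⟨x.c + y.c + be D x.f (T x.z * y.f), x.f + T x.z * y.f, x.z + y.z⟩⟩
noncomputable instance : One (El D) := ⟨⟨0, 0, 0⟩⟩
noncomputable instance : Inv (El D) :=
  ⟨fun x => ⟨-(x.c + be D (-(T (-x.z) * x.f)) (T (-x.z) * x.f)), -(T (-x.z) * x.f), -x.z⟩⟩

theorem mul_c (x y : El D) : (x * y).c = x.c + y.c + be D x.f (T x.z * y.f) := rfl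
theorem mul_f (x y : El D) : (x * y).f = x.f + T x.z * y.f := rfl
theorem mul_z (x y : El D) : (x * y).z = x.z + y.z := rfl
theorem one_c : (1 : El D).c = 0 := rfl
theorem one_f : (1 : El D).f = 0 := rfl
theorem one_z : (1 : El D).z = 0 := rfl
theorem inv_f (x : El D) : (x⁻¹).f = -(T (-x.z) * x.f) := rfl
theorem inv_z (x : El D) : (x⁻¹).z = -x.z := rfl

noncomputable instance : Group (El D) :=
  Group.ofLeftAxioms
    (by
      intro x y z
      apply El.ext
      · show (x.c + y.c + be D x.f (T x.z * y.f)) + z.c +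
          be D (x.f + T x.z * y.f) (T (x.z + y.z) * z.f) =
          x.c + (y.c + z.c + be D y.f (T y.z * z.f)) +
            be D x.f (T x.z * (y.f + T y.z * z.f))
        rw [be_add_left, mul_add, be_add_right]
        have e1 : (T (x.z + y.z) : R) * z.f = T x.z * (T y.z * z.f) := by
          rw [T_add, mul_assoc]
        rw [e1, be_shift]
        abel
      · show (x.f + T x.z * y.f) + T (x.z + y.z) * z.f = x.f + T x.z * (y.f + T y.z * z.f)
        rw [T_add]
        ring
      · exact add_assoc _ _ _)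
    (by
      intro x
      apply El.ext
      · show 0 + x.c + be D 0 (T 0 * x.f) = x.c
        rw [be_zero_left]
        simp
      · show 0 + T 0 * x.f = x.f
        rw [T_zero]
        ring
      · exact zero_add _)
    (by
      intro x
      apply El.ext
      · show -(x.c + be D (-(T (-x.z) * x.f)) (T (-x.z) * x.f)) + x.c +
          be D (-(T (-x.z) * x.f)) (T (-x.z) * x.f) = 0
        abel
      · show -(T (-x.z) * x.f) + T (-x.z) * x.f = 0
        ring
      · exact neg_add_cancel _)

/-- `[x, y] = x y x⁻¹ y⁻¹`. -/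
def br {H : Type*} [Group H] (a b : H) : H := a * b * a⁻¹ * b⁻¹

theorem br_eq_one {H : Type*} [Group H] (a b : H) : br a b = 1 ↔ a * b = b * a := by
  unfold br
  rw [mul_inv_eq_one, mul_inv_eq_iff_eq_mul]

theorem T_neg_mul (n : ℤ) : (T (-n) : R) * T n = 1 := by
  rw [← T_add, neg_add_cancel, T_zero]

theorem neg_eq2 (p : R) : -p = p := by
  rw [neg_eq_iff_add_eq_zero]
  exact add_self2 p

/-- The lamps of the commutator. -/
noncomputable def hh (x y : El D) : R := (1 + T y.z) * x.f + (1 + T x.z) * y.f

theorem br_z (x y : El D) : (br x y).z = 0 := by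
  simp only [br, mul_z, inv_z]
  ring

theorem div_f (u v : El D) (h : u.z = v.z) : (u * v⁻¹).f = u.f - v.f := by
  rw [mul_f, inv_f, h]
  have : (T v.z : R) * -(T (-v.z) * v.f) = -((T (-v.z) * T v.z) * v.f) := by ring
  rw [this, T_neg_mul]
  ring

theorem br_f (x y : El D) : (br x y).f = hh x y := by
  have h : br x y = (x * y) * (y * x)⁻¹ := by
    unfold br
    group
  rw [h, div_f _ _ (by rw [mul_z, mul_z, add_comm])]
  rw [mul_f, mul_f]
  unfold hh
  have e1 : x.f + T x.z * y.f - (y.f + T y.z * x.f) =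
    x.f + T x.z * y.f + (-(y.f) + -(T y.z * x.f)) := by ring
  rw [e1, neg_eq2, neg_eq2]
  ring

theorem pow_z (x : El D) (m : ℕ) : (x ^ m).z = m * x.z := by
  induction m with
  | zero => simp [one_z]
  | succ m ih =>
    rw [pow_succ, mul_z, ih]
    push_cast
    ring

theorem conj_z (u v : El D) (hv : v.z = 0) : (u * v * u⁻¹).z = 0 := by
  rw [mul_z, mul_z, inv_z, hv]
  ring

theorem conj_f (u v : El D) (hv : v.z = 0) : (u * v * u⁻¹).f = T u.z * v.f := by
  rw [div_f _ _ (by rw [mul_z, hv, add_zero]), mul_f]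
  ring

theorem comm_iff (u v : El D) (hu : u.z = 0) (hv : v.z = 0) :
    u * v = v * u ↔ be D u.f v.f = be D v.f u.f := by
  constructor
  · intro h
    have h1 := congrArg El.c h
    rw [mul_c, mul_c, hu, hv, T_zero, one_mul, one_mul, add_comm v.c u.c] at h1
    exact add_left_cancel h1
  · intro h
    apply El.ext
    · rw [mul_c, mul_c, hu, hv, T_zero, one_mul, one_mul, add_comm v.c u.c, h]
    · rw [mul_f, mul_f, hu, hv, T_zero]
      ring
    · rw [mul_z, mul_z, add_comm]

/-- The counting functional. -/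
noncomputable def cnt (k : ℕ) : R →+ ZMod 2 := Lf fun r => if (k : ℤ) < r then 1 else 0

theorem cnt_T (k : ℕ) (n : ℤ) : cnt k (T n) = if (k : ℤ) < n then 1 else 0 := Lf_T _ _

/-- The obstruction at `k`, a function of `s` and the lamps `h`. -/
noncomputable def ob (k : ℕ) (s : ℤ) (h : R) : ZMod 2 :=
  cnt k ((T s + T (-s)) * (invert h * h))

theorem be_eq (k : ℕ) (f g : R) : be D f g k = if D k = true then cnt k (invert f * g) else 0 := by
  unfold be cnt
  by_cases h : D k = true
  · rw [if_pos h]
    congr 2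
    funext r
    simp [ker, h]
  · rw [if_neg h]
    have : ker D k = fun _ => 0 := by
      funext r
      simp [ker, h]
    rw [this, Lf_zero]

/-- The word `[[x, y], x^41 [x, y] x^-41]`. -/
def wd : FreeGroup (Fin 2) :=
  br (br (FreeGroup.of 0) (FreeGroup.of 1))
    ((FreeGroup.of 0) ^ 41 * br (FreeGroup.of 0) (FreeGroup.of 1) * ((FreeGroup.of 0) ^ 41)⁻¹)

theorem lift_wd {H : Type*} [Group H] (g : Fin 2 → H) :
    FreeGroup.lift g wd = br (br (g 0) (g 1)) ((g 0) ^ 41 * br (g 0) (g 1) * ((g 0) ^ 41)⁻¹) := by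
  simp [wd, br]

theorem zmod2_eq (a b : ZMod 2) : a = b ↔ a + b = 0 := by
  revert a b
  decide

theorem wd_iff (x y : El D) :
    br (br x y) (x ^ 41 * br x y * (x ^ 41)⁻¹) = 1 ↔
      ∀ k, D k = true → ob k (41 * x.z) (hh x y) = 0 := by
  rw [br_eq_one, comm_iff _ _ (br_z x y) (conj_z _ _ (br_z x y)), conj_f _ _ (br_z x y), br_f,
    pow_z]
  rw [funext_iff]
  refine forall_congr' fun k => ?_
  rw [be_eq, be_eq]
  by_cases h : D k = true
  · rw [if_pos h, if_pos h, zmod2_eq]
    simp only [h, forall_true_left]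
    unfold ob
    rw [← map_add]
    have e : invert (hh x y) * (T (((41 : ℕ) : ℤ) * x.z) * hh x y) +
        invert (T (((41 : ℕ) : ℤ) * x.z) * hh x y) * hh x y =
        (T (41 * x.z) + T (-(41 * x.z))) * (invert (hh x y) * hh x y) := by
      rw [map_mul, invert_T]
      push_cast
      ring
    rw [e]
  · rw [if_neg h, if_neg h]
    simp [h]

end El

end Pool.Agent.X141.LZ
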