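import Mathlib

/-!
Laurent polynomials over `ZMod 2`, additive functionals on them, and supports.
-/

set_option autoImplicit false

namespace Pool.Agent.X141.LZ

open LaurentPolynomial

/-- Laurent polynomials over `ZMod 2`. -/
abbrev R : Type := LaurentPolynomial (ZMod 2)

theorem R_ind {P : R → Prop} (h0 : P 0) (hadd : ∀ p q, P p → P q → P (p + q))
    (hT : ∀ n : ℤ, P (T n)) (p : R) : P p := by
  induction p using LaurentPolynomial.induction_on' with
  | add p q hp hq => exact hadd p q hp hq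
  | C_mul_T n a =>
    have h : a = 0 ∨ a = 1 := by
      revert a
      decide
    rcases h with rfl | rfl
    · simpa using h0
    · simpa using hT n

theorem add_self2 (p : R) : p + p = 0 := by
  ext a
  rw [AddMonoidAlgebra.coeff_add, Finsupp.add_apply]
  exact CharTwo.add_self_eq_zero _

/-- The additive functional with `Lf φ (T n) = φ n`. -/
noncomputable def Lf (φ : ℤ → ZMod 2) : R →+ ZMod 2 where
  toFun p := p.coeff.sum fun r c => c * φ r
  map_zero' := by simp
  map_add' p q := by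
    rw [AddMonoidAlgebra.coeff_add]
    exact Finsupp.sum_add_index' (by simp) (by intros; ring)

theorem Lf_T (φ : ℤ → ZMod 2) (n : ℤ) : Lf φ (T n) = φ n := by
  show (T n : R).coeff.sum (fun r c => c * φ r) = φ n
  unfold T
  rw [AddMonoidAlgebra.coeff_single, Finsupp.sum_single_index (by simp)]
  simp

theorem Lf_one (φ : ℤ → ZMod 2) : Lf φ 1 = φ 0 := by
  rw [← T_zero, Lf_T]

theorem Lf_shift (φ : ℤ → ZMod 2) (n : ℤ) (p : R) :
    Lf φ (T n * p) = Lf (fun r => φ (n + r)) p := by
  induction p using R_ind with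
  | h0 => simp
  | hadd p q hp hq => rw [mul_add, map_add, map_add, hp, hq]
  | hT m => rw [← T_add, Lf_T, Lf_T]

theorem Lf_zero (p : R) : Lf (fun _ => 0) p = 0 := by
  induction p using R_ind with
  | h0 => simp
  | hadd p q hp hq => rw [map_add, hp, hq, add_zero]
  | hT m => rw [Lf_T]

/-- The total sum of the coefficients vanishes on multiples of `1 + T^n`. -/
theorem Lf_aug (n : ℤ) (p : R) : Lf (fun _ => 1) ((1 + T n) * p) = 0 := by
  rw [add_mul, one_mul, map_add, Lf_shift]
  exact CharTwo.add_self_eq_zero _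

/-- Laurent polynomials supported in `[A, B]`. -/
noncomputable def I (A B : ℤ) : AddSubgroup R := AddSubgroup.closure {p | ∃ r : ℤ, A ≤ r ∧ r ≤ B ∧ p = T r}

theorem I_T {A B r : ℤ} (h1 : A ≤ r) (h2 : r ≤ B) : (T r : R) ∈ I A B :=
  AddSubgroup.subset_closure ⟨r, h1, h2, rfl⟩

theorem I_one {A B : ℤ} (h1 : A ≤ 0) (h2 : 0 ≤ B) : (1 : R) ∈ I A B := by
  rw [← T_zero]
  exact I_T h1 h2

theorem I_mono {A B A' B' : ℤ} (h1 : A' ≤ A) (h2 : B ≤ B') : I A B ≤ I A' B' := by
  apply AddSubgroup.closure_mono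
  rintro p ⟨r, a, b, rfl⟩
  exact ⟨r, h1.trans a, b.trans h2, rfl⟩

/-- Induction for `I A B`. -/
theorem I_ind {A B : ℤ} {P : R → Prop} (h0 : P 0) (hadd : ∀ p q, P p → P q → P (p + q))
    (hT : ∀ n : ℤ, A ≤ n → n ≤ B → P (T n)) {p : R} (hp : p ∈ I A B) : P p := by
  unfold I at hp
  induction hp using AddSubgroup.closure_induction with
  | mem x hx =>
    obtain ⟨r, a, b, rfl⟩ := hx
    exact hT r a b
  | zero => exact h0
  | add x y _ _ hx hy => exact hadd x y hx hy
  | neg x _ hx =>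
    have : -x = x := by
      rw [neg_eq_iff_add_eq_zero]
      exact add_self2 x
    rw [this]
    exact hx

theorem I_mul {A B A' B' : ℤ} {p q : R} (hp : p ∈ I A B) (hq : q ∈ I A' B') :
    p * q ∈ I (A + A') (B + B') := by
  refine I_ind (P := fun p => p * q ∈ I (A + A') (B + B')) ?_ ?_ ?_ hp
  · simp only [zero_mul]
    exact (I _ _).zero_mem
  · intro u v hu hv
    show (u + v) * q ∈ _
    rw [add_mul]
    exact (I _ _).add_mem hu hv
  · intro n h1 h2
    refine I_ind (P := fun q => (T n : R) * q ∈ I (A + A') (B + B')) ?_ ?_ ?_ hq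
    · simp only [mul_zero]
      exact (I _ _).zero_mem
    · intro u v hu hv
      show T n * (u + v) ∈ _
      rw [mul_add]
      exact (I _ _).add_mem hu hv
    · intro m h3 h4
      show (T n : R) * T m ∈ _
      rw [← T_add]
      exact I_T (by omega) (by omega)

theorem I_shift {A B : ℤ} (n : ℤ) {p : R} (hp : p ∈ I A B) : T n * p ∈ I (A + n) (B + n) := by
  have := I_mul (I_T (le_refl n) (le_refl n)) hp
  rwa [add_comm n A, add_comm n B] at this

theorem I_inv {A B : ℤ} {p : R} (hp : p ∈ I A B) : invert p ∈ I (-B) (-A) := by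
  refine I_ind (P := fun p => invert p ∈ I (-B) (-A)) ?_ ?_ ?_ hp
  · simp only [map_zero]
    exact (I _ _).zero_mem
  · intro u v hu hv
    show invert (u + v) ∈ _
    rw [map_add]
    exact (I _ _).add_mem hu hv
  · intro n h1 h2
    show invert (T n) ∈ _
    rw [invert_T]
    exact I_T (by omega) (by omega)

theorem Lf_I {A B : ℤ} {φ ψ : ℤ → ZMod 2} (h : ∀ r, A ≤ r → r ≤ B → φ r = ψ r) {p : R}
    (hp : p ∈ I A B) : Lf φ p = Lf ψ p := by
  refine I_ind (P := fun p => Lf φ p = Lf ψ p) ?_ ?_ ?_ hp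
  · simp
  · intro u v hu hv
    show Lf φ (u + v) = Lf ψ (u + v)
    rw [map_add, map_add, hu, hv]
  · intro n h1 h2
    show Lf φ (T n) = Lf ψ (T n)
    rw [Lf_T, Lf_T, h n h1 h2]

theorem I_exists (p : R) : ∃ B : ℤ, 0 ≤ B ∧ p ∈ I (-B) B := by
  induction p using R_ind with
  | h0 => exact ⟨0, le_rfl, (I _ _).zero_mem⟩
  | hadd p q hp hq =>
    obtain ⟨b, hb, h1⟩ := hp
    obtain ⟨c, hc, h2⟩ := hq
    refine ⟨b + c, by omega, (I _ _).add_mem ?_ ?_⟩
    · exact I_mono (by omega) (by omega) h1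
    · exact I_mono (by omega) (by omega) h2
  | hT n => exact ⟨|n|, abs_nonneg n, I_T (neg_abs_le n) (le_abs_self n)⟩

end Pool.Agent.X141.LZ
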