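import Pool.Agent.X141.LZ.Grp
import Pool.Agent.X141.LZ.Defs

/-!
The lazy switch-walk-switch walk on the lamplighter group: moments, range, toggle invariance.
-/

set_option autoImplicit false

namespace Pool.Agent.X141.LZ

open LaurentPolynomial El

section steps

variable {D : ℕ → Bool}

/-- The lamp `b` at the origin. -/
noncomputable def lamp (b : ZMod 2) : El D := ⟨0, C b, 0⟩

/-- Move by `σ`. -/
noncomputable def mv (σ : ℤ) : El D := ⟨0, 0, σ⟩

/-- Index set of the generators. -/
abbrev Ix : Type := ZMod 2 × ℤˣ × ZMod 2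

/-- switch, walk, switch -/
noncomputable def st (p : Ix) : El D := lamp p.1 * mv (p.2.1 : ℤ) * lamp p.2.2

theorem zmod2_cases (b : ZMod 2) : b = 0 ∨ b = 1 := by
  revert b
  decide

theorem lamp_zero : lamp (D := D) 0 = 1 := by
  apply El.ext
  · rfl
  · exact map_zero C
  · rfl

theorem lamp_mul (b b' : ZMod 2) : lamp (D := D) b * lamp b' = lamp (b + b') := by
  apply El.ext
  · rw [mul_c]
    show 0 + 0 + be D (C b) (T 0 * C b') = 0
    rw [T_zero, one_mul, add_zero, zero_add]
    rcases zmod2_cases b with rfl | rfl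
    · rw [map_zero, be_zero_left]
    · rcases zmod2_cases b' with rfl | rfl
      · rw [map_zero, be_zero_right]
      · rw [map_one]
        funext k
        unfold be
        rw [map_one, mul_one, Lf_one, ker_zero]
        rfl
  · rw [mul_f]
    show C b + T 0 * C b' = C (b + b')
    rw [T_zero, one_mul, map_add]
  · rfl

theorem lamp_inv (b : ZMod 2) : (lamp (D := D) b)⁻¹ = lamp b := by
  rw [inv_eq_iff_mul_eq_one, lamp_mul]
  have : b + b = 0 := CharTwo.add_self_eq_zero b
  rw [this, lamp_zero]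

theorem mv_inv (σ : ℤ) : (mv (D := D) σ)⁻¹ = mv (-σ) := by
  rw [inv_eq_iff_mul_eq_one]
  apply El.ext
  · rw [mul_c]
    show 0 + 0 + be D 0 (T σ * 0) = 0
    rw [be_zero_left]
    simp
  · rw [mul_f]
    show 0 + T σ * 0 = 0
    simp
  · rw [mul_z]
    exact add_neg_cancel σ

theorem st_f (p : Ix) : (st (D := D) p).f = C p.1 + T (p.2.1 : ℤ) * C p.2.2 := by
  unfold st
  rw [mul_f, mul_f]
  show C p.1 + T 0 * 0 + T (0 + (p.2.1 : ℤ)) * C p.2.2 = _
  rw [mul_zero, add_zero, zero_add]

theorem st_z (p : Ix) : (st (D := D) p).z = p.2.1 := by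
  unfold st
  rw [mul_z, mul_z]
  show 0 + (p.2.1 : ℤ) + 0 = _
  ring

theorem st_inv (p : Ix) : (st (D := D) p)⁻¹ = st (p.2.2, -p.2.1, p.1) := by
  unfold st
  rw [mul_inv_rev, mul_inv_rev, lamp_inv, lamp_inv, mv_inv, mul_assoc]
  rfl

theorem lamp_st (p : Ix) : lamp (D := D) 1 * st p = st (1 + p.1, p.2.1, p.2.2) := by
  unfold st
  rw [← mul_assoc, ← mul_assoc, lamp_mul]

theorem st_inj : Function.Injective (st (D := D)) := by
  rintro ⟨a, σ, b⟩ ⟨a', σ', b'⟩ h
  have hz := congrArg El.z h
  rw [st_z, st_z] at hz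
  have hs : σ = σ' := Units.ext hz
  subst hs
  have hf := congrArg El.f h
  rw [st_f, st_f] at hf
  simp only at hf
  have hne : (σ : ℤ) ≠ 0 := σ.ne_zero
  have key : ∀ (u v : ZMod 2) (n : ℤ), ((C u + T (σ : ℤ) * C v : R)).coeff n =
      (if n = 0 then u else 0) + (if n = σ then v else 0) := by
    intro u v n
    rw [AddMonoidAlgebra.coeff_add, Finsupp.add_apply, C_apply]
    congr 1
    rcases zmod2_cases v with rfl | rfl
    · simp
    · rw [map_one, mul_one, T_apply]
      simp only [eq_comm]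
  have h0 := congrArg (fun p : R => p.coeff 0) hf
  have h1 := congrArg (fun p : R => p.coeff (σ : ℤ)) hf
  simp only [key] at h0 h1
  simp only [hne, hne.symm, if_true, if_false, add_zero, zero_add] at h0 h1
  rw [h0, h1]

theorem sum_units (f : ℤˣ → ℝ) : ∑ u : ℤˣ, f u = f 1 + f (-1) := by
  have h : (Finset.univ : Finset ℤˣ) = {1, -1} := by decide
  rw [h, Finset.sum_insert (by decide), Finset.sum_singleton]

theorem card_Ix : Fintype.card Ix = 8 := by
  simp [Ix, Fintype.card_prod]

end steps

/-! ### The walk on the lamplighter group -/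

/-- The lamplighter group (with an unused central part). -/
abbrev LL : Type := El (fun _ => false)

/-- The step law. -/
noncomputable def muL : LL →₀ ℝ :=
  Finsupp.single 1 (1 / 2) + ∑ p : Ix, Finsupp.single (st p) (1 / 16)

theorem EE_muL (F : LL → ℝ) : EE muL F = 1 / 2 * F 1 + ∑ p : Ix, 1 / 16 * F (st p) := by
  unfold muL
  rw [EE_add, EE_single, EE_sum]
  simp only [EE_single]

theorem muL_nonneg (g : LL) : 0 ≤ muL g := by
  classical
  unfold muL
  rw [Finsupp.add_apply, Finsupp.finsetSum_apply]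
  refine add_nonneg ?_ (Finset.sum_nonneg fun p _ => ?_)
  · rw [Finsupp.single_apply]
    split_ifs <;> norm_num
  · rw [Finsupp.single_apply]
    split_ifs <;> norm_num

theorem EE_muL_z (g : ℤ → ℝ) :
    EE muL (fun x => g x.z) = 1 / 2 * g 0 + 1 / 4 * g 1 + 1 / 4 * g (-1) := by
  rw [EE_muL]
  simp only [st_z]
  rw [Fintype.sum_prod_type]
  simp only [Fintype.sum_prod_type]
  simp only [Finset.sum_const, Finset.card_univ, ZMod.card, sum_units]
  rw [one_z]
  simp only [Units.val_one, Units.val_neg]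
  ring

theorem muL_mass : EE muL (fun _ => 1) = 1 := by
  have := EE_muL_z (fun _ => 1)
  rw [this]
  norm_num

/-- The law of the walk at time `n`. -/
noncomputable def la (n : ℕ) : LL →₀ ℝ := convPow muL n

theorem la_nonneg (n : ℕ) (g : LL) : 0 ≤ la n g := convPow_nonneg _ muL_nonneg n g

theorem la_mass (n : ℕ) : EE (la n) (fun _ => 1) = 1 := EE_pow_one _ muL_mass n

theorem la_succ (n : ℕ) (F : LL → ℝ) :
    EE (la (n + 1)) F = EE (la n) (fun x => EE muL (fun y => F (x * y))) := EE_succ _ _ _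

theorem la_succ' (n : ℕ) (F : LL → ℝ) :
    EE (la (n + 1)) F = EE muL (fun x => EE (la n) (fun y => F (x * y))) := EE_succ' _ _ _

theorem la_zero (F : LL → ℝ) : EE (la 0) F = F 1 := EE_convPow_zero _ _

theorem m2 (n : ℕ) : EE (la n) (fun x => (x.z : ℝ) ^ 2) = n / 2 := by
  induction n with
  | zero =>
    rw [la_zero, one_z]
    simp
  | succ n ih =>
    rw [la_succ]
    have h : (fun x : LL => EE muL (fun y => (((x * y).z : ℤ) : ℝ) ^ 2)) =
        fun x => (x.z : ℝ) ^ 2 + 1 / 2 := by
      funext x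
      have := EE_muL_z (fun t => ((x.z : ℝ) + (t : ℝ)) ^ 2)
      simp only [mul_z, Int.cast_add]
      rw [this]
      push_cast
      ring
    rw [h, EE_add_fun, ih, EE_const _ (la_mass n)]
    push_cast
    ring

theorem m4 (n : ℕ) : EE (la n) (fun x => (x.z : ℝ) ^ 4) ≤ 3 / 4 * (n : ℝ) ^ 2 := by
  induction n with
  | zero =>
    rw [la_zero, one_z]
    simp
  | succ n ih =>
    rw [la_succ]
    have h : (fun x : LL => EE muL (fun y => (((x * y).z : ℤ) : ℝ) ^ 4)) =
        fun x => (x.z : ℝ) ^ 4 + (3 * (x.z : ℝ) ^ 2 + 1 / 2) := by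
      funext x
      have := EE_muL_z (fun t => ((x.z : ℝ) + (t : ℝ)) ^ 4)
      simp only [mul_z, Int.cast_add]
      rw [this]
      push_cast
      ring
    rw [h, EE_add_fun, EE_add_fun, EE_mul_left, m2, EE_const _ (la_mass n)]
    push_cast
    nlinarith

open Classical in
/-- `|z| ≥ r` has probability at least `1/9` at time `4 r²`. -/
theorem prob_far (r : ℕ) (hr : 0 < r) :
    1 / 9 ≤ EE (la (4 * r ^ 2)) (fun x => if (r : ℤ) ≤ |x.z| then (1 : ℝ) else 0) := by
  have hr' : (0 : ℝ) < r := by exact_mod_cast hr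
  have hp : ∀ x : LL, 1 / (81 * (r : ℝ) ^ 4) * ((20 * (r : ℝ) ^ 2 * (x.z : ℝ) ^ 2 + -(19 * (r : ℝ) ^ 4)) -
      (x.z : ℝ) ^ 4) ≤ (if (r : ℤ) ≤ |x.z| then (1 : ℝ) else 0) := by
    intro x
    have h81 : (0 : ℝ) < 81 * (r : ℝ) ^ 4 := by positivity
    split_ifs with h
    · rw [one_div, inv_mul_le_iff₀ h81]
      nlinarith [sq_nonneg ((x.z : ℝ) ^ 2 - 10 * (r : ℝ) ^ 2)]
    · rw [one_div, inv_mul_le_iff₀ h81]
      have h1 : |x.z| < r := not_le.1 h
      have h2 : |(x.z : ℝ)| < r := by exact_mod_cast h1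
      have h3 : (x.z : ℝ) ^ 2 < (r : ℝ) ^ 2 := by
        rw [← sq_abs]
        have := abs_nonneg (x.z : ℝ)
        nlinarith
      have h4 : 0 < (r : ℝ) ^ 2 - (x.z : ℝ) ^ 2 := by linarith
      have h5 : 0 < 19 * (r : ℝ) ^ 2 - (x.z : ℝ) ^ 2 := by nlinarith
      nlinarith [mul_pos h4 h5]
  have h := EE_mono (la (4 * r ^ 2)) (la_nonneg _) _ _ hp
  refine le_trans ?_ h
  rw [EE_mul_left, EE_sub_fun, EE_add_fun, EE_mul_left, m2, EE_const _ (la_mass _)]
  have h4 := m4 (4 * r ^ 2)
  have h81 : (0 : ℝ) < 81 * (r : ℝ) ^ 4 := by positivity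
  rw [one_div, one_div, inv_mul_eq_div, le_div_iff₀ h81]
  push_cast at h4 ⊢
  nlinarith

/-- The reflection. -/
noncomputable def refl : LL →* LL where
  toFun x := ⟨x.c, invert x.f, -x.z⟩
  map_one' := by
    apply El.ext
    · rfl
    · exact map_zero _
    · exact neg_zero
  map_mul' x y := by
    apply El.ext
    · show x.c + y.c + be (fun _ => false) x.f (T x.z * y.f) =
        x.c + y.c + be (fun _ => false) (invert x.f) (T (-x.z) * invert y.f)
      rw [be_false, be_false]
    · show invert (x.f + T x.z * y.f) = invert x.f + T (-x.z) * invert y.f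
      rw [map_add, map_mul, invert_T]
    · show -(x.z + y.z) = -x.z + -y.z
      ring

theorem st_c_false (p : Ix) : (st p : LL).c = 0 := by
  unfold st
  rw [mul_c, mul_c, be_false, be_false]
  show (0 : ℕ → ZMod 2) + 0 + 0 + 0 + 0 = 0
  simp

theorem refl_st (p : Ix) : refl (st p) = st (p.1, -p.2.1, p.2.2) := by
  apply El.ext
  · show (st p : LL).c = _
    rw [st_c_false, st_c_false]
  · show invert (st p : LL).f = _
    rw [st_f, st_f, map_add, map_mul, invert_T, invert_C, invert_C]
    simp
  · show -(st p : LL).z = _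
    rw [st_z, st_z]
    simp

theorem la_refl (n : ℕ) (F : LL → ℝ) : EE (la n) (fun x => F (refl x)) = EE (la n) F := by
  refine EE_map refl muL muL ?_ n F
  intro F
  rw [EE_muL, EE_muL, map_one]
  congr 1
  simp only [refl_st]
  exact Equiv.sum_comp ((Equiv.refl (ZMod 2)).prodCongr ((Equiv.neg ℤˣ).prodCongr
    (Equiv.refl (ZMod 2)))) (fun p => 1 / 16 * F (st p))

/-- Toggle invariance. -/
theorem la_toggle (n : ℕ) (F : LL → ℝ) (hF : ∀ x : LL, x.z = 0 → F x = 0) :
    EE (la n) (fun x => F (lamp 1 * x)) = EE (la n) F := by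
  induction n generalizing F with
  | zero =>
    rw [la_zero, la_zero, hF _ rfl, hF]
    rfl
  | succ n ih =>
    rw [la_succ', la_succ', EE_muL, EE_muL]
    congr 1
    · congr 1
      simp only [one_mul]
      exact ih F hF
    · have e : ∀ p : Ix, (fun y : LL => F (lamp 1 * (st p * y))) =
          fun y => F (st (1 + p.1, p.2.1, p.2.2) * y) := by
        intro p
        funext y
        rw [← mul_assoc, lamp_st]
      simp only [e]
      exact Equiv.sum_comp ((Equiv.addLeft (1 : ZMod 2)).prodCongr (Equiv.refl (ℤˣ × ZMod 2)))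
        (fun p : Ix => 1 / 16 * EE (la n) (fun y => F (st p * y)))

/-- The walk started at `c` stays within `[-K, K]`, as seen from lamps and final position. -/
def good (K c : ℤ) (x : LL) : Prop := T c * x.f ∈ I (-K) K ∧ -K ≤ c + x.z ∧ c + x.z ≤ K

theorem st_I (p : Ix) {K c : ℤ} (hc : |c| < K) : T c * (st p : LL).f ∈ I (-K) K := by
  rw [st_f, mul_add]
  rw [abs_lt] at hc
  have hs : (p.2.1 : ℤ) = 1 ∨ (p.2.1 : ℤ) = -1 := by
    rcases Int.units_eq_one_or p.2.1 with h | h
    · left
      rw [h]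
      rfl
    · right
      rw [h]
      rfl
  refine (I _ _).add_mem ?_ ?_
  · rcases zmod2_cases p.1 with h | h
    · rw [h, map_zero, mul_zero]
      exact (I _ _).zero_mem
    · rw [h, map_one, mul_one]
      exact I_T (by omega) (by omega)
  · rcases zmod2_cases p.2.2 with h | h
    · rw [h, map_zero, mul_zero, mul_zero]
      exact (I _ _).zero_mem
    · rw [h, map_one, mul_one, ← T_add]
      exact I_T (by omega) (by omega)

theorem good_mul {K c : ℤ} (x y : LL) (hx : T c * x.f ∈ I (-K) K) (hy : good K (c + x.z) y) :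
    good K c (x * y) := by
  refine ⟨?_, ?_, ?_⟩
  · rw [mul_f, mul_add, ← mul_assoc, ← T_add]
    exact (I _ _).add_mem hx hy.1
  · rw [mul_z, ← add_assoc]
    exact hy.2.1
  · rw [mul_z, ← add_assoc]
    exact hy.2.2

open Classical in
theorem not_good (K : ℤ) (hK : 0 ≤ K) (n : ℕ) (c : ℤ) :
    (K : ℝ) ^ 2 * EE (la n) (fun x => if ¬ good K c x then (1 : ℝ) else 0) ≤
      (c : ℝ) ^ 2 + n / 2 := by
  induction n generalizing c with
  | zero =>
    rw [la_zero]
    by_cases h : |c| ≤ K
    · have hg : good K c 1 := by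
        rw [abs_le] at h
        refine ⟨?_, ?_, ?_⟩
        · rw [one_f, mul_zero]
          exact (I _ _).zero_mem
        · rw [one_z, add_zero]
          exact h.1
        · rw [one_z, add_zero]
          exact h.2
      rw [if_neg (not_not.2 hg)]
      have := sq_nonneg (c : ℝ)
      simpa using this
    · have h1 : K < |c| := not_le.1 h
      have h2 : (K : ℝ) < |(c : ℝ)| := by exact_mod_cast h1
      have h3 : (0 : ℝ) ≤ K := by exact_mod_cast hK
      have h4 : (K : ℝ) ^ 2 ≤ (c : ℝ) ^ 2 := by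
        rw [← sq_abs (c : ℝ)]
        nlinarith
      have h5 := sq_nonneg (c : ℝ)
      split_ifs
      · simpa using h5
      · simpa using h4
  | succ n ih =>
    by_cases h : |c| < K
    · rw [la_succ']
      have h1 : EE muL (fun x => EE (la n) (fun y => if ¬ good K c (x * y) then (1 : ℝ) else 0)) ≤
          EE muL (fun x => EE (la n) (fun y => if ¬ good K (c + x.z) y then (1 : ℝ) else 0)) := by
        rw [EE_muL, EE_muL]
        refine add_le_add ?_ (Finset.sum_le_sum fun p _ => ?_)
        · simp only [one_mul, one_z, add_zero]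
          exact le_rfl
        · refine mul_le_mul_of_nonneg_left ?_ (by norm_num)
          refine EE_mono _ (la_nonneg n) _ _ fun y => ?_
          by_cases hy : good K (c + (st p : LL).z) y
          · have := good_mul _ y (st_I p h) hy
            rw [if_neg (not_not.2 this), if_neg (not_not.2 hy)]
          · rw [if_pos hy]
            split_ifs
            · exact zero_le_one
            · exact le_rfl
      have h2 : (K : ℝ) ^ 2 * EE muL (fun x => EE (la n) (fun y =>
          if ¬ good K (c + x.z) y then (1 : ℝ) else 0)) ≤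
          EE muL (fun x => ((c : ℝ) + (x.z : ℝ)) ^ 2 + n / 2) := by
        rw [← EE_mul_left]
        refine EE_mono _ muL_nonneg _ _ fun x => ?_
        have := ih (c + x.z)
        push_cast at this
        exact this
      have h3 := EE_muL_z (fun t => ((c : ℝ) + (t : ℝ)) ^ 2 + n / 2)
      rw [h3] at h2
      have hK2 : (0 : ℝ) ≤ (K : ℝ) ^ 2 := sq_nonneg _
      refine (mul_le_mul_of_nonneg_left h1 hK2).trans (h2.trans (le_of_eq ?_))
      push_cast
      ring
    · have h1 : K ≤ |c| := not_lt.1 h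
      have h2 : (K : ℝ) ≤ |(c : ℝ)| := by exact_mod_cast h1
      have h3 : (0 : ℝ) ≤ K := by exact_mod_cast hK
      have h4 : (K : ℝ) ^ 2 ≤ (c : ℝ) ^ 2 := by
        rw [← sq_abs (c : ℝ)]
        nlinarith
      have h5 : EE (la (n + 1)) (fun x => if ¬ good K c x then (1 : ℝ) else 0) ≤ 1 := by
        have h := EE_mono (la (n + 1)) (la_nonneg _)
          (fun x => if ¬ good K c x then (1 : ℝ) else 0) (fun _ => 1) (fun x => by
            show (if ¬ good K c x then (1 : ℝ) else 0) ≤ 1
            by_cases hx : good K c x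
            · rw [if_neg (not_not.2 hx)]
              exact zero_le_one
            · rw [if_pos hx])
        rwa [la_mass] at h
      have h6 : (0 : ℝ) ≤ ((n + 1 : ℕ) : ℝ) / 2 := by positivity
      nlinarith [mul_le_mul_of_nonneg_left h5 (sq_nonneg (K : ℝ))]

end Pool.Agent.X141.LZ
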